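import Pool.Agent.W601.RP.Stm2

set_option autoImplicit false
open scoped Classical
open Filter Topology

namespace Pool.Agent.W601.RP

theorem gs_N2 (t : ℕ) : 2 ≤ N t := by
  unfold N
  have := Nat.factorial_pos (t + 1)
  omega

theorem gs_red_zero : Red 0 := by
  intro t
  have := gs_N2 t
  simp only [Finsupp.coe_zero, Pi.zero_apply]
  omega

theorem gs_red_single (t : ℕ) : Red (Finsupp.single t 1) := by
  intro u
  have := gs_N2 u
  rw [Finsupp.single_apply]
  split_ifs <;> omega

/-- The residue in `(-n/2, n/2]`. -/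
def gsRes (n : ℕ) (a : ℤ) : ℤ := if 2 * (a % (n : ℤ)) ≤ n then a % (n : ℤ) else a % (n : ℤ) - n

theorem gsRes_zero (n : ℕ) : gsRes n 0 = 0 := by
  unfold gsRes
  simp

theorem gsRes_dvd (n : ℕ) (a : ℤ) : ∃ m : ℤ, a = gsRes n a + (n : ℤ) * m := by
  unfold gsRes
  have h := Int.emod_add_mul_ediv a (n : ℤ)
  split_ifs
  · exact ⟨a / n, by linarith⟩
  · exact ⟨a / n + 1, by linarith⟩

theorem gsRes_red (n : ℕ) (hn : 2 ≤ n) (a : ℤ) :
    -(n : ℤ) < 2 * gsRes n a ∧ 2 * gsRes n a ≤ n := by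
  unfold gsRes
  have h1 := Int.emod_nonneg a (b := (n : ℤ)) (by omega)
  have h2 := Int.emod_lt_of_pos a (b := (n : ℤ)) (by omega)
  split_ifs <;> omega

theorem gs : S_RED → S_SEP → S_NULL → S_GS := by
  rintro ⟨r1, r2, r3, r4⟩ hsep ⟨_, hnull⟩
  have hp0 : ∀ h : ℕ → TT, pr 0 h = 0 := fun h => by
    unfold pr
    exact Finsupp.sum_zero_index
  have hred : ∀ k : ℕ →₀ ℤ, ∃ k' : ℕ →₀ ℤ, Red k' ∧ phi k = phi k' := by
    intro k
    obtain ⟨k', h1, h2⟩ := r1 k
    exact ⟨k', h1, funext fun h => h2 _ h.2⟩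
  have hadd : ∀ k k' : ℕ →₀ ℤ, phi (k + k') = phi k + phi k' := by
    intro k k'
    funext h
    exact r2 k k' _
  have hzero : phi 0 = 0 := funext fun h => hp0 _
  have hneg : ∀ k : ℕ →₀ ℤ, phi (-k) = -phi k := by
    intro k
    have h := hadd (-k) k
    rw [neg_add_cancel, hzero] at h
    exact eq_neg_of_add_eq_zero_left h.symm
  have hmem : ∀ k, phi k ∈ GS := fun k => AddSubgroup.subset_closure ⟨k, rfl⟩
  have hrep : ∀ g : ↥GS, ∃ k : ℕ →₀ ℤ, Red k ∧ (g : ↥H → TT) = phi k := by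
    rintro ⟨g, hg⟩
    show ∃ k : ℕ →₀ ℤ, Red k ∧ g = phi k
    have hg' : g ∈ AddSubgroup.closure (Set.range phi) := hg
    induction hg' using AddSubgroup.closure_induction with
    | mem y hy =>
      obtain ⟨k, rfl⟩ := hy
      exact hred k
    | zero => exact ⟨0, gs_red_zero, hzero.symm⟩
    | add y z _ _ h1 h2 =>
      obtain ⟨k1, _, e1⟩ := h1 (by assumption)
      obtain ⟨k2, _, e2⟩ := h2 (by assumption)
      obtain ⟨k3, h3, e3⟩ := hred (k1 + k2)
      exact ⟨k3, h3, by rw [← e3, hadd, e1, e2]⟩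
    | neg y _ h1 =>
      obtain ⟨k1, _, e1⟩ := h1 (by assumption)
      obtain ⟨k3, h3, e3⟩ := hred (-k1)
      exact ⟨k3, h3, by rw [← e3, hneg, e1]⟩
  have huniq : ∀ k k' : ℕ →₀ ℤ, Red k → Red k' → phi k = phi k' → k = k' := by
    intro k k' hk hk' he
    set d : ℕ →₀ ℤ := k - k' with hd
    have hd0 : ∀ h ∈ H, pr d h = 0 := by
      intro h hh
      have h1 : pr k h = pr k' h := congrFun he ⟨h, hh⟩
      have h2 := r2 d k' h
      rw [hd, sub_add_cancel, h1] at h2
      exact left_eq_add.1 (by rw [hd]; rw [add_comm] at h2; exact h2)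
    let k2 : ℕ →₀ ℤ := Finsupp.onFinset d.support (fun t => gsRes (N t) (d t)) (by
      intro t ht
      rw [Finsupp.mem_support_iff]
      intro h0
      apply ht
      show gsRes (N t) (d t) = 0
      rw [h0]
      exact gsRes_zero _)
    have hk2 : ∀ t, k2 t = gsRes (N t) (d t) := fun t => rfl
    have hk2r : Red k2 := fun t => by
      rw [hk2]
      exact gsRes_red _ (gs_N2 t) _
    have hk2p : ∀ h ∈ H, pr k2 h = 0 := by
      intro h hh
      rw [← hd0 h hh]
      unfold pr
      rw [Finsupp.onFinset_sum _ (fun t => by simp)]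
      unfold Finsupp.sum
      refine Finset.sum_congr rfl fun t _ => ?_
      obtain ⟨m, hm⟩ := gsRes_dvd (N t) (d t)
      have h0 : ((N t : ℤ) * m) • h t = 0 := by
        rw [mul_comm, mul_smul, natCast_zsmul, hnull h hh t, smul_zero]
      show gsRes (N t) (d t) • h t = d t • h t
      conv_rhs => rw [hm, add_smul, h0, add_zero]
    have hk20 : k2 = 0 := by
      by_contra hne
      obtain ⟨h, hh, hne'⟩ := hsep k2 hk2r hne
      exact hne' (hk2p h hh)
    have : d = 0 := by
      ext t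
      obtain ⟨m, hm⟩ := gsRes_dvd (N t) (d t)
      have h0 : gsRes (N t) (d t) = 0 := by
        rw [← hk2, hk20]
        rfl
      rw [h0, zero_add] at hm
      have h1 := hk t
      have h2 := hk' t
      have h3 : d t = k t - k' t := rfl
      have hN := gs_N2 t
      have h4 : |d t| < N t := by
        rw [h3, abs_lt]
        constructor <;> omega
      exact Int.eq_zero_of_abs_lt_dvd ⟨m, hm⟩ h4
    exact sub_eq_zero.1 this
  refine ⟨hrep, hmem, huniq, ?_, ?_⟩
  · have hs : Function.Surjective (fun k : ℕ →₀ ℤ => (⟨phi k, hmem k⟩ : ↥GS)) := by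
      intro g
      obtain ⟨k, _, hk⟩ := hrep g
      exact ⟨k, Subtype.ext hk.symm⟩
    exact hs.countable
  · refine Infinite.of_injective (fun t : ℕ => (⟨phi (Finsupp.single t 1), hmem _⟩ : ↥GS)) ?_
    intro t t' h
    have h1 : phi (Finsupp.single t 1) = phi (Finsupp.single t' 1) := congrArg Subtype.val h
    have h2 := huniq _ _ (gs_red_single t) (gs_red_single t') h1
    exact Finsupp.single_left_injective one_ne_zero h2

end Pool.Agent.W601.RP
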